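import Mathlib

/-!
# Codes from sets without three terms in arithmetic progression
-/

namespace Pool.Agent.J4H24.TE

open Real

/-- The property of the code `S` on `[0, N)`. -/
def Free (N : ℕ) (S : ℕ → ℕ) : Prop :=
  ∀ a b c, a < N → b < N → c < N → S a + S b = 2 * S c → a = c ∧ b = c

lemma exists_code {N k : ℕ} (hN : 2 ≤ N) (hk : k ≤ N) :
    ∃ (S : ℕ → ℕ) (N' : ℕ), Free N S ∧ (∀ a, a < N → ∀ x, x < k → x + 2 * S a < N') ∧ N ≤ N' ∧
      √(Real.log N') ≤ √(Real.log N) + 5 := by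
  have hN1 : (1 : ℝ) ≤ N := by exact_mod_cast (by omega : 1 ≤ N)
  have hN0 : (0 : ℝ) < N := by linarith
  have hlogN : 0 ≤ Real.log N := Real.log_nonneg hN1
  set y : ℝ := √(Real.log N) with hy
  have hy0 : 0 ≤ y := Real.sqrt_nonneg _
  have hy2 : y ^ 2 = Real.log N := Real.sq_sqrt hlogN
  set R : ℝ := N * Real.exp (4 * y + 16) with hR
  have hR0 : 0 < R := by positivity
  have hRN : (N : ℝ) ≤ R := by
    have : (1 : ℝ) ≤ Real.exp (4 * y + 16) := Real.one_le_exp (by linarith)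
    nlinarith
  set M : ℕ := ⌈R⌉₊ with hM
  have hM1 : R ≤ M := Nat.le_ceil _
  have hM2 : (M : ℝ) < R + 1 := Nat.ceil_lt_add_one hR0.le
  have hM0 : (0 : ℝ) < M := by linarith
  have hlogR : Real.log R = y ^ 2 + 4 * y + 16 := by
    rw [hR, Real.log_mul (by positivity) (by positivity), Real.log_exp, hy2]
    ring
  have hlogM : y ^ 2 + 4 * y + 16 ≤ Real.log M := by
    rw [← hlogR]
    exact Real.log_le_log hR0 hM1
  set z : ℝ := √(Real.log M) with hz
  have hz0 : 0 ≤ z := Real.sqrt_nonneg _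
  have hz2 : z ^ 2 = Real.log M := Real.sq_sqrt (by nlinarith)
  have hzy : y ^ 2 + 4 * z ≤ z ^ 2 := by
    rcases le_total z (y + 4) with h | h
    · linarith
    · nlinarith
  have hroth : (N : ℝ) ≤ rothNumberNat M := by
    refine le_trans ?_ (Behrend.roth_lower_bound (N := M))
    rw [← Real.log_le_log_iff hN0 (by positivity), Real.log_mul (by positivity) (by positivity),
      Real.log_exp, ← hy2, ← hz]
    linarith
  have hroth' : N ≤ rothNumberNat M := by exact_mod_cast hroth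
  obtain ⟨t, ht1, ht2, ht3⟩ := rothNumberNat_spec M
  rw [← ht2] at hroth'
  let e := t.equivFin
  let S : ℕ → ℕ := fun a => if h : a < t.card then (e.symm ⟨a, h⟩ : ℕ) else 0
  have hSm : ∀ a, a < N → S a ∈ t := by
    intro a ha
    have h1 : a < t.card := by omega
    simp only [S, dif_pos h1]
    exact (e.symm ⟨a, h1⟩).2
  have hSi : ∀ a b, a < N → b < N → S a = S b → a = b := by
    intro a b ha hb hab
    have h1 : a < t.card := by omega
    have h2 : b < t.card := by omega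
    simp only [S, dif_pos h1, dif_pos h2] at hab
    have h3 := e.symm.injective (Subtype.ext hab)
    exact congrArg Fin.val h3
  refine ⟨S, k + 2 * M, ?_, ?_, ?_, ?_⟩
  · intro a b c ha hb hc hab
    have h1 : S a = S c := ht3 (hSm a ha) (hSm c hc) (hSm b hb) (by omega)
    have h2 : S b = S c := by omega
    exact ⟨hSi a c ha hc h1, hSi b c hb hc h2⟩
  · intro a ha x hx
    have := Finset.mem_range.mp (ht1 (hSm a ha))
    omega
  · have : (N : ℝ) ≤ M := hRN.trans hM1
    have : N ≤ M := by exact_mod_cast this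
    omega
  · have h1 : ((k + 2 * M : ℕ) : ℝ) ≤ N * Real.exp (4 * y + 19) := by
      push_cast
      have hk' : (k : ℝ) ≤ N := by exact_mod_cast hk
      have he : Real.exp (4 * y + 19) = Real.exp (4 * y + 16) * Real.exp 3 := by
        rw [← Real.exp_add]; ring_nf
      have he3 : (6 : ℝ) ≤ Real.exp 3 := by
        have h2 := Real.add_one_le_exp (1 : ℝ)
        have h3 : Real.exp 3 = Real.exp 1 * Real.exp 1 * Real.exp 1 := by
          rw [← Real.exp_add, ← Real.exp_add]; norm_num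
        rw [h3]
        have h4 : (2 : ℝ) ≤ Real.exp 1 := by linarith
        have h5 : (4 : ℝ) ≤ Real.exp 1 * Real.exp 1 := by nlinarith
        nlinarith
      rw [he, ← mul_assoc, ← hR]
      have : R * 6 ≤ R * Real.exp 3 := mul_le_mul_of_nonneg_left he3 hR0.le
      linarith
    have h0 : (0 : ℝ) < ((k + 2 * M : ℕ) : ℝ) := by
      push_cast
      have : (0 : ℝ) ≤ k := by positivity
      linarith
    have h2 : Real.log ((k + 2 * M : ℕ) : ℝ) ≤ (y + 5) ^ 2 := by
      refine (Real.log_le_log h0 h1).trans ?_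
      rw [Real.log_mul (by positivity) (by positivity), Real.log_exp, ← hy2]
      nlinarith
    calc √(Real.log ((k + 2 * M : ℕ) : ℝ)) ≤ √((y + 5) ^ 2) := Real.sqrt_le_sqrt h2
      _ = y + 5 := Real.sqrt_sq (by linarith)

/-- The sequence of codes. -/
lemma exists_codes {k : ℕ} (hk : 2 ≤ k) : ∃ (S : ℕ → ℕ → ℕ) (Nn : ℕ → ℕ), Nn 0 = k ∧
    (∀ d, Free (Nn d) (S d)) ∧ (∀ d a, a < Nn d → ∀ x, x < k → x + 2 * S d a < Nn (d + 1)) ∧
    (∀ d, Nn d ≤ Nn (d + 1)) ∧ (∀ d : ℕ, √(Real.log (Nn d)) ≤ √(Real.log k) + 5 * d) := by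
  have step : ∀ N : {N : ℕ // 2 ≤ N ∧ k ≤ N}, ∃ (S : ℕ → ℕ) (N' : {N : ℕ // 2 ≤ N ∧ k ≤ N}),
      Free N.1 S ∧ (∀ a, a < N.1 → ∀ x, x < k → x + 2 * S a < N'.1) ∧ N.1 ≤ N'.1 ∧
      √(Real.log N'.1) ≤ √(Real.log N.1) + 5 := by
    intro N
    obtain ⟨S, N', h1, h2, h3, h4⟩ := exists_code N.2.1 N.2.2
    exact ⟨S, ⟨N', le_trans N.2.1 h3, le_trans N.2.2 h3⟩, h1, h2, h3, h4⟩
  choose S nx h1 h2 h3 h4 using step
  let Nn : ℕ → {N : ℕ // 2 ≤ N ∧ k ≤ N} := fun d => Nat.rec ⟨k, hk, le_rfl⟩ (fun _ N => nx N) d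
  have hs : ∀ d, Nn (d + 1) = nx (Nn d) := fun d => rfl
  refine ⟨fun d => S (Nn d), fun d => (Nn d).1, rfl, fun d => h1 _, ?_, ?_, ?_⟩
  · intro d a ha x hx
    exact h2 (Nn d) a ha x hx
  · intro d
    exact h3 (Nn d)
  · intro d
    induction d with
    | zero =>
      show √(Real.log ((k : ℕ) : ℝ)) ≤ _
      push_cast
      linarith
    | succ d ih =>
      have := h4 (Nn d)
      rw [← hs d] at this
      push_cast at ih ⊢
      linarith

end Pool.Agent.J4H24.TE
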