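import Pool.Agent.J4H24.TE.Str

/-!
# The levels of the strip codes
-/

namespace Pool.Agent.J4H24.TE

/-- The sizes, divided by `4 w`. -/
def mu (w : ℕ) : ℕ → ℕ
  | 0 => w
  | d + 1 => mu w d + mu w d / w + 1

/-- The sizes. -/
def mm (w d : ℕ) : ℕ := 4 * w * mu w d

/-- The ranges of the registers. -/
def NS (w : ℕ) : ℕ → ℕ
  | 0 => 1
  | d + 1 => (mm w d + 2) ^ (16 * w)

lemma mu_succ_le (w d : ℕ) : mu w d ≤ mu w (d + 1) := by
  show mu w d ≤ mu w d + mu w d / w + 1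
  exact (Nat.le_add_right _ _).trans (Nat.le_add_right _ _)

lemma le_mu (w : ℕ) : ∀ d, w ≤ mu w d
  | 0 => le_rfl
  | d + 1 => (le_mu w d).trans (mu_succ_le w d)

lemma growth {w : ℕ} (hw : 0 < w) (d : ℕ) :
    4 * (mm w d + 2) ^ (16 * w) ≤ mm w (d + 1) ^ (16 * w) := by
  have h1 : mu w d + 1 ≤ w * (mu w d / w + 1) := by
    have h2 := Nat.div_add_mod (mu w d) w
    have h3 := Nat.mod_lt (mu w d) hw
    rw [Nat.mul_add]
    omega
  have h4 : (4 * w + 1) * (mm w d + 2) ≤ 4 * w * mm w (d + 1) := by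
    have e : mm w (d + 1) = 4 * w * mu w d + 4 * (w * (mu w d / w + 1)) := by
      show 4 * w * (mu w d + mu w d / w + 1) = _
      ring
    rw [e]
    unfold mm
    have h5 : 4 * w * (4 * (mu w d + 1)) ≤ 4 * w * (4 * (w * (mu w d / w + 1))) := by gcongr
    have h6 : 0 ≤ w * mu w d := Nat.zero_le _
    nlinarith
  have h7 : ((4 * w + 1) * (mm w d + 2)) ^ (16 * w) ≤ (4 * w * mm w (d + 1)) ^ (16 * w) :=
    Nat.pow_le_pow_left h4 _
  rw [mul_pow, mul_pow (4 * w)] at h7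
  have h8 : 4 * (4 * w) ^ (16 * w) ≤ (4 * w + 1) ^ (16 * w) := by
    have h9 : (4 : ℝ) * (4 * w) ^ (16 * w) ≤ (4 * w + 1) ^ (16 * w) := by
      have hw' : (0 : ℝ) < w := by exact_mod_cast hw
      have h10 := one_add_mul_le_pow (a := 1 / (4 * (w : ℝ))) (by
        have : (0 : ℝ) < 1 / (4 * w) := by positivity
        linarith) (16 * w)
      have h11 : (1 : ℝ) + ((16 * w : ℕ) : ℝ) * (1 / (4 * w)) = 5 := by
        push_cast
        field_simp
        norm_num
      rw [h11] at h10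
      have h12 : (4 * (w : ℝ) + 1) = 4 * w * (1 + 1 / (4 * w)) := by
        field_simp
      have h15 : (4 * (w : ℝ) * (1 + 1 / (4 * w))) ^ (16 * w) =
          (4 * (w : ℝ)) ^ (16 * w) * (1 + 1 / (4 * w)) ^ (16 * w) := mul_pow _ _ _
      rw [h12, h15]
      have h13 : (0 : ℝ) < (4 * (w : ℝ)) ^ (16 * w) := by positivity
      nlinarith
    exact_mod_cast h9
  have h14 : (4 * w) ^ (16 * w) * (4 * (mm w d + 2) ^ (16 * w)) ≤
      (4 * w) ^ (16 * w) * mm w (d + 1) ^ (16 * w) := by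
    calc (4 * w) ^ (16 * w) * (4 * (mm w d + 2) ^ (16 * w))
        = (4 * (4 * w) ^ (16 * w)) * (mm w d + 2) ^ (16 * w) := by ring
      _ ≤ (4 * w + 1) ^ (16 * w) * (mm w d + 2) ^ (16 * w) := Nat.mul_le_mul_right _ h8
      _ ≤ _ := h7
  exact Nat.le_of_mul_le_mul_left h14 (by positivity)

lemma four_NS {w : ℕ} (hw : 0 < w) : ∀ d, 4 * NS w d ≤ mm w d ^ (16 * w)
  | 0 => by
      show 4 * 1 ≤ (4 * w * w) ^ (16 * w)
      have h1 : 4 ≤ 4 * w * w := by nlinarith
      calc 4 * 1 ≤ 4 * w * w := by omega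
        _ ≤ (4 * w * w) ^ (16 * w) := Nat.le_self_pow (by omega) _
  | d + 1 => growth hw d

lemma NS_mono (w : ℕ) : ∀ d, NS w d ≤ NS w (d + 1)
  | 0 => by
      show 1 ≤ (mm w 0 + 2) ^ (16 * w)
      exact Nat.one_le_pow _ _ (by omega)
  | d + 1 => by
      show (mm w d + 2) ^ (16 * w) ≤ (mm w (d + 1) + 2) ^ (16 * w)
      apply Nat.pow_le_pow_left
      unfold mm
      have := Nat.mul_le_mul_left (4 * w) (mu_succ_le w d)
      omega

/-- The strip codes. -/
lemma strip_codes {k w : ℕ} (hw : 0 < w) (hk : k ≤ 2 ^ w) :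
    ∃ al be : ℕ → ℕ → ℕ → ℕ, Codes k al be (NS w) := by
  have hex : ∀ d, ∃ al be : ℕ → ℕ → ℕ,
      (∀ x x' s t s', x < k → x' < k → s < NS w d → t < NS w d → s' < NS w d →
        al x s = al x' t → be x' t = be x s' → x' = x ∧ s' = s) ∧
      (∀ x s, x < k → s < NS w d → al x s < (mm w d + 2) ^ (16 * w)) ∧
      (∀ x s, x < k → s < NS w d → be x s < (mm w d + 2) ^ (16 * w)) := by
    intro d
    refine exists_strip hw hk ⟨mu w d, rfl⟩ ?_ (four_NS hw d)
    unfold mm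
    have := le_mu w d
    exact Nat.mul_pos (by omega) (by omega)
  choose al be h1 h2 h3 using hex
  refine ⟨fun d => if d = 0 then fun x _ => x else al d, be, ?_, ?_, ?_, NS_mono w, ?_, ?_⟩
  · intro d x x' s t s' hx hx' hs ht hs' e1 e2
    simp only [Nat.add_eq_zero_iff, one_ne_zero, and_false, if_false] at e1
    exact h1 (d + 1) x x' s t s' hx hx' hs ht hs' e1 e2
  · intro d x s hx hs
    by_cases hd : d = 0
    · subst hd
      simp only [if_true]
      have h4 : 2 ^ w ≤ (mm w 0 + 2) ^ (16 * w) := by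
        calc 2 ^ w ≤ 2 ^ (16 * w) := Nat.pow_le_pow_right (by norm_num) (by omega)
          _ ≤ _ := Nat.pow_le_pow_left (by omega) _
      show x < (mm w 0 + 2) ^ (16 * w)
      omega
    · simp only [if_neg hd]
      exact h2 d x s hx hs
  · intro d x s hx hs
    exact h3 d x s hx hs
  · intro x x' _ _ e
    simpa using e
  · show 0 < 1
    norm_num

lemma mu_le {w : ℕ} (hw : 0 < w) : ∀ d : ℕ, (mu w d : ℝ) ≤ w * (1 + 2 / w) ^ d
  | 0 => by simp [mu]
  | d + 1 => by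
      have ih := mu_le hw d
      have hw' : (0 : ℝ) < w := by exact_mod_cast hw
      have h1 : ((mu w d / w : ℕ) : ℝ) ≤ (mu w d : ℝ) / w := Nat.cast_div_le
      have h2 : (1 : ℝ) ≤ (mu w d : ℝ) / w := by
        rw [le_div_iff₀ hw', one_mul]
        exact_mod_cast le_mu w d
      have h3 : ((mu w (d + 1) : ℕ) : ℝ) = mu w d + ((mu w d / w : ℕ) : ℝ) + 1 := by
        show ((mu w d + mu w d / w + 1 : ℕ) : ℝ) = _
        push_cast
        ring
      rw [h3, pow_succ]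
      calc (mu w d : ℝ) + ((mu w d / w : ℕ) : ℝ) + 1 ≤ mu w d + mu w d / w + mu w d / w := by
            linarith
        _ = mu w d * (1 + 2 / w) := by field_simp; ring
        _ ≤ (w * (1 + 2 / w) ^ d) * (1 + 2 / w) := by gcongr
        _ = _ := by ring

open Real in
/-- The last range. -/
lemma NS_le {w : ℕ} (hw : 0 < w) (h : ℕ) :
    (NS w (h + 1) : ℝ) ≤ Real.exp (16 * w * Real.log (8 * w ^ 2) + 32 * h) := by
  have hw' : (0 : ℝ) < w := by exact_mod_cast hw
  have hw1 : (1 : ℝ) ≤ w := by exact_mod_cast hw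
  have h1 : ((mm w h + 2 : ℕ) : ℝ) ≤ (8 * w ^ 2) * (1 + 2 / w) ^ h := by
    have h2 := mu_le hw h
    have h3 : (w : ℝ) ≤ mu w h := by exact_mod_cast le_mu w h
    unfold mm
    push_cast
    have h4 : (2 : ℝ) ≤ 4 * w * mu w h := by nlinarith
    have h5 : 4 * (w : ℝ) * mu w h ≤ 4 * w * (w * (1 + 2 / w) ^ h) := by gcongr
    nlinarith
  have h6 : (NS w (h + 1) : ℝ) = ((mm w h + 2 : ℕ) : ℝ) ^ (16 * w) := by
    show (((mm w h + 2) ^ (16 * w) : ℕ) : ℝ) = _
    push_cast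
    ring
  have h7 : (1 + 2 / (w : ℝ)) ^ h ≤ Real.exp (2 / w * h) := by
    have h8 : (1 + 2 / (w : ℝ)) ≤ Real.exp (2 / w) := by
      have := Real.add_one_le_exp (2 / (w : ℝ)); linarith
    calc (1 + 2 / (w : ℝ)) ^ h ≤ Real.exp (2 / w) ^ h := by gcongr
      _ = Real.exp (2 / w * h) := by rw [← Real.exp_nat_mul]; ring_nf
  rw [h6]
  calc ((mm w h + 2 : ℕ) : ℝ) ^ (16 * w) ≤ ((8 * w ^ 2) * Real.exp (2 / w * h)) ^ (16 * w) := by
        gcongr
        exact h1.trans (by gcongr)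
    _ = (Real.exp (Real.log (8 * w ^ 2)) * Real.exp (2 / w * h)) ^ (16 * w) := by
        rw [Real.exp_log (by positivity)]
    _ = Real.exp (16 * w * Real.log (8 * w ^ 2) + 32 * h) := by
        rw [← Real.exp_add, ← Real.exp_nat_mul]
        congr 1
        push_cast
        field_simp
        ring

end Pool.Agent.J4H24.TE
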