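import Pool.Agent.J4H24.TE.Seq

/-!
# The complete run is unique
-/

namespace Pool.Agent.J4H24.TE

variable {k : ℕ} {al be : ℕ → ℕ → ℕ → ℕ} {Nn : ℕ → ℕ} {K : ℕ} {f : Var k → Fin k}

/-- Runs with the list `R` of the contents of the registers. -/
def TRun (al be : ℕ → ℕ → ℕ → ℕ) (Nn : ℕ → ℕ) (K : ℕ) (f : Var k → Fin k) :
    List Ins → List (Fin k × Fin k) → List (Fin 3 → ℕ) → (Fin 3 → ℕ) → (Fin 3 → ℕ) → Prop
  | [], G, R, p, p' => G = [] ∧ R = [] ∧ p = p'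
  | I :: L, G, R, p, p' => ∃ g G' r R', G = g :: G' ∧ R = r :: R' ∧ (∀ j, r j < K) ∧
      StepR al be Nn I g.1 g.2 (f (qv I g.1 g.2)) p r ∧ TRun al be Nn K f L G' R' r p'

lemma trun_run : ∀ (L : List Ins) (G : List (Fin k × Fin k)) (R : List (Fin 3 → ℕ))
    (p p' : Fin 3 → ℕ), TRun al be Nn K f L G R p p' → Run al be Nn K f L G p p'
  | [], G, R, p, p', h => by
      obtain ⟨e1, e2, e3⟩ := h
      subst e1
      exact e3
  | I :: L, G, R, p, p', h => by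
      obtain ⟨g, G', r, R', e1, e2, h1, h2, h3⟩ := h
      subst e1
      exact ⟨r, h1, h2, trun_run L G' R' r p' h3⟩

lemma trun_split : ∀ (L₁ L₂ : List Ins) (G : List (Fin k × Fin k)) (R : List (Fin 3 → ℕ))
    (p p' : Fin 3 → ℕ), TRun al be Nn K f (L₁ ++ L₂) G R p p' →
    ∃ G₁ G₂ R₁ R₂ p₁, G = G₁ ++ G₂ ∧ R = R₁ ++ R₂ ∧ L₁.length = G₁.length ∧
      TRun al be Nn K f L₁ G₁ R₁ p p₁ ∧ TRun al be Nn K f L₂ G₂ R₂ p₁ p'
  | [], L₂, G, R, p, p', h => ⟨[], G, [], R, p, rfl, rfl, rfl, ⟨rfl, rfl, rfl⟩, h⟩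
  | I :: L₁, L₂, G, R, p, p', h => by
      obtain ⟨g, G', r, R', e1, e2, h1, h2, h3⟩ := h
      obtain ⟨G₁, G₂, R₁, R₂, p₁, a1, a2, a3, a4, a5⟩ := trun_split L₁ L₂ G' R' r p' h3
      refine ⟨g :: G₁, G₂, r :: R₁, R₂, p₁, ?_, ?_, ?_, ?_, a5⟩
      · rw [e1, a1]; rfl
      · rw [e2, a2]; rfl
      · simp [a3]
      · exact ⟨g, G₁, r, R₁, rfl, rfl, h1, h2, a4⟩

lemma opr_det (hS : Codes k al be Nn) {o : Bool} {d : ℕ} {c : Fin k} {s s₁ s₂ : ℕ}
    (h1 : OpR al be Nn o d c s s₁) (h2 : OpR al be Nn o d c s s₂) (hd : o = false → 0 < d) :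
    s₁ = s₂ := by
  cases o with
  | true => rw [(h1.1 rfl).2, (h2.1 rfl).2]
  | false =>
    obtain ⟨a1, a2⟩ := h1.2 rfl
    obtain ⟨b1, b2⟩ := h2.2 rfl
    have hd' := hd rfl
    obtain ⟨d', rfl⟩ : ∃ d', d = d' + 1 := ⟨d - 1, by omega⟩
    exact (hS.rs d' c c s₁ s₁ s₂ c.isLt c.isLt a1 a1 b1 rfl (a2.symm.trans b2)).2.symm

lemma usr_det (hS : Codes k al be Nn) {d : ℕ} {x : Fin k} {s s₁ s₂ : ℕ}
    (h1 : UsR al be Nn (d + 1) x s s₁) (h2 : UsR al be Nn (d + 1) x s s₂) : s₁ = s₂ := by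
  obtain ⟨t, ht, a1, a2⟩ := h1
  obtain ⟨t', ht', b1, b2⟩ := h2
  have := (hS.rs d x x t t' t' x.isLt x.isLt ht ht' ht' (a1.symm.trans b1) rfl).2
  rw [a2, b2, this]

/-- **Uniqueness** of the runs. -/
theorem uniq [NeZero k] (hS : Codes k al be Nn) {h : ℕ} : ∀ (n : ℕ) (v : List Bool) (i : Fin 3)
    (o : Bool) (d : ℕ) (G G' : List (Fin k × Fin k)) (R R' : List (Fin 3 → ℕ))
    (p p' p'' : Fin 3 → ℕ), v.length + n = h → (o = false → 0 < d) →
    TRun al be Nn K f (sq n v i o d) G R p p' → TRun al be Nn K f (sq n v i o d) G' R' p p'' →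
    NormG (sq n v i o d) G → NormG (sq n v i o d) G' → G = G' ∧ R = R' ∧ p' = p''
  | 0, v, i, o, d, G, G', R, R', p, p', p'', hv, hd, h1, h2, m1, m2 => by
      obtain ⟨g, H, r, S, e1, e2, _, e3, e4, e5, e6⟩ := h1
      obtain ⟨g', H', r', S', e1', e2', _, e3', e4', e5', e6'⟩ := h2
      subst e1 e2 e1' e2' e4 e4' e5 e5' e6 e6'
      have q1 : g = (0, 0) := m1.1
      have q2 : g' = (0, 0) := m2.1
      subst q1 q2
      obtain ⟨a1, a2, a3⟩ := e3
      obtain ⟨b1, b2, b3⟩ := e3'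
      have hr : r = r' := by
        funext j
        rcases fin3 i j with e | e | e <;> rw [e]
        · exact opr_det hS a1 b1 hd
        · rw [a2, b2]
        · rw [a3, b3]
      subst hr
      exact ⟨rfl, rfl, rfl⟩
  | n + 1, v, i, o, d, G, G', R, R', p, p', p'', hv, hd, h1, h2, m1, m2 => by
      have l1 : (false :: v).length + n = h := by simp only [List.length_cons]; omega
      have l2 : (true :: v).length + n = h := by simp only [List.length_cons]; omega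
      -- the guesses at the root
      have guess : ∀ (G₁ G₂ G₄ : List (Fin k × Fin k)) (g : Fin k × Fin k) (R : List (Fin 3 → ℕ))
          (p p' : Fin 3 → ℕ), (sq n (false :: v) (i + 1) true (d + 1)).length = G₁.length →
          (sq n (true :: v) (i + 2) true (d + 1)).length = G₂.length →
          TRun al be Nn K f (sq (n + 1) v i o d) (G₁ ++ (G₂ ++ (g :: G₄))) R p p' →
          g = (val f n (false :: v), val f n (true :: v)) := by
        intro G₁ G₂ G₄ g R p p' k1 k2 hr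
        have hs := (sound (h := h) hS (n + 1) v i o d _ p p' hv (trun_run _ _ _ _ _ hr)).1
        have hm : Var.node v g.1 g.2 ∈ qs (sq (n + 1) v i o d) (G₁ ++ (G₂ ++ (g :: G₄))) := by
          simp only [sq]
          rw [qs_append _ _ _ _ k1, qs_append _ _ _ _ k2, qs]
          simp [qv]
        rcases hs _ hm with ⟨v', e, _⟩ | ⟨v', n', hn, e⟩
        · cases e
        · injection e with e1 e2 e3
          have hn' : n' = n := by rw [← e1] at hn; omega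
          rw [← e1, hn'] at e2 e3
          exact Prod.ext e2 e3
      have H1 := h1
      have H2 := h2
      obtain ⟨G₁, G₂, R₁, R₂, p₁, eG, eR, k1, r1, h1⟩ := trun_split _ _ _ _ _ _ h1
      obtain ⟨G₁', G₂', R₁', R₂', p₁', eG', eR', k1', r1', h2⟩ := trun_split _ _ _ _ _ _ h2
      obtain ⟨G₃, G₄, R₃, R₄, p₂, eG2, eR2, k2, r2, h1⟩ := trun_split _ _ _ _ _ _ h1
      obtain ⟨G₃', G₄', R₃', R₄', p₂', eG2', eR2', k2', r2', h2⟩ := trun_split _ _ _ _ _ _ h2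
      obtain ⟨g, G₅, r, R₅, eG3, eR3, _, st, h1⟩ := h1
      obtain ⟨g', G₅', r', R₅', eG3', eR3', _, st', h2⟩ := h2
      obtain ⟨G₆, G₇, R₆, R₇, p₄, eG4, eR4, k4, r4, r5⟩ := trun_split _ _ _ _ _ _ h1
      obtain ⟨G₆', G₇', R₆', R₇', p₄', eG4', eR4', k4', r4', r5'⟩ := trun_split _ _ _ _ _ _ h2
      subst eG4 eG4' eR4 eR4' 
      subst eG3 eG3' eR3 eR3'
      subst eG2 eG2' eR2 eR2'
      subst eG eG' eR eR'
      have hg := guess _ _ _ _ _ _ _ k1 k2 H1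
      have hg' := guess _ _ _ _ _ _ _ k1' k2' H2
      simp only [sq] at m1 m2
      rw [norm_append _ _ _ _ k1, norm_append _ _ _ _ k2, NormG, norm_append _ _ _ _ k4] at m1
      rw [norm_append _ _ _ _ k1', norm_append _ _ _ _ k2', NormG, norm_append _ _ _ _ k4'] at m2
      obtain ⟨n1, n2, n4, n5⟩ := m1
      obtain ⟨n1', n2', n4', n5'⟩ := m2
      obtain ⟨a1, a2, a3⟩ := uniq hS n _ _ _ _ _ _ _ _ _ _ _ l1 (by simp) r1 r1' n1 n1'
      subst a1 a2 a3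
      obtain ⟨a1, a2, a3⟩ := uniq hS n _ _ _ _ _ _ _ _ _ _ _ l2 (by simp) r2 r2' n2 n2'
      subst a1 a2 a3
      rw [hg] at st
      rw [hg'] at st'
      have hr : r = r' := by
        obtain ⟨a1, a2, a3⟩ := st
        obtain ⟨b1, b2, b3⟩ := st'
        funext j
        rcases fin3 i j with e | e | e <;> rw [e]
        · exact opr_det hS a1 b1 hd
        · exact usr_det hS a2 b2
        · exact usr_det hS a3 b3
      subst hr
      obtain ⟨a1, a2, a3⟩ := uniq hS n _ _ _ _ _ _ _ _ _ _ _ l2 (by simp) r4 r4' n4 n4'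
      subst a1 a2 a3
      obtain ⟨a1, a2, a3⟩ := uniq hS n _ _ _ _ _ _ _ _ _ _ _ l1 (by simp) r5 r5' n5 n5'
      subst a1 a2 a3
      rw [hg, hg']
      exact ⟨rfl, rfl, rfl⟩

end Pool.Agent.J4H24.TE
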