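import Pool.Agent.J4H24.TE.Main
import Pool.Agent.J4H24.TE.Ap

/-!
# The codes from Behrend's sets
-/

namespace Pool.Agent.J4H24.TE

open Real

/-- **Small unambiguous thrifty programs for small heights.** -/
theorem te_behrend (h k : ℕ) (hk : 2 ≤ k) : ∃ (Q : Type) (_ : Fintype Q) (P : NBP k Q),
    Thrifty P h ∧ Solves P h ∧ (Fintype.card Q : ℝ) ≤
      (k : ℝ) ^ 5 * Real.exp (100 * (h + 1) * (√(Real.log k) + (h + 1))) := by
  obtain ⟨S, Nn, hN0, hS, hB, hM, hlog⟩ := exists_codes hk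
  have hmono : ∀ a b, a ≤ b → Nn a ≤ Nn b := monotone_nat_of_le_succ hM
  have hC : Codes k (fun d x s => x + S d s) (fun d x s => x + 2 * S d s) Nn := by
    refine ⟨?_, ?_, ?_, hM, ?_, by omega⟩
    · intro d x x' s t s' _ _ hs ht hs' h1 h2
      obtain ⟨e1, e2⟩ := hS (d + 1) s t s' hs ht hs' (by omega)
      rw [e1, e2] at h1
      exact ⟨by omega, e1.symm⟩
    · intro d x s hx hs
      have := hB d s hs x hx
      omega
    · intro d x s hx hs
      exact hB d s hs x hx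
    · intro x x' _ _ e
      omega
  obtain ⟨Q, hQ, P, h1, h2, h3⟩ := te_gen (h := h) hk hC
  refine ⟨Q, hQ, P, h1, h2, ?_⟩
  set K := Nn (h + 1) with hKdef
  have hkK : k ≤ K := by rw [← hN0]; exact hmono _ _ (by omega)
  have hK : 0 < K := by omega
  have hK0 : (0 : ℝ) < K := by exact_mod_cast hK
  have hk1 : (1 : ℝ) ≤ k := by exact_mod_cast (by omega : 1 ≤ k)
  have hk0' : (0 : ℝ) < k := by linarith
  have hl0 : 0 ≤ Real.log k := Real.log_nonneg hk1
  set z := √(Real.log k) with hz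
  have hz0 : 0 ≤ z := Real.sqrt_nonneg _
  have hz2 : z ^ 2 = Real.log k := Real.sq_sqrt hl0
  have hKl : Real.log K ≤ (z + 5 * (h + 1)) ^ 2 := by
    have h1 := hlog (h + 1)
    push_cast at h1
    have h2 : 0 ≤ Real.log K := Real.log_nonneg (by exact_mod_cast hK)
    have h3 : Real.log K = √(Real.log K) ^ 2 := (Real.sq_sqrt h2).symm
    rw [h3]
    exact pow_le_pow_left₀ (Real.sqrt_nonneg _) h1 2
  have hKe : (K : ℝ) ≤ Real.exp ((z + 5 * (h + 1)) ^ 2) := by
    rw [← Real.log_le_iff_le_exp hK0]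
    exact hKl
  have h4 : (2 : ℝ) * 4 ^ h ≤ Real.exp (4 * (h + 1)) := by
    have h5 : (4 : ℝ) ≤ Real.exp 4 := by
      have := Real.add_one_le_exp (4 : ℝ); linarith
    have h6 : (2 : ℝ) * 4 ^ h ≤ 4 ^ (h + 1) := by
      rw [pow_succ]
      have : (0 : ℝ) < 4 ^ h := by positivity
      linarith
    have h7 : (4 : ℝ) ^ (h + 1) ≤ Real.exp 4 ^ (h + 1) := pow_le_pow_left₀ (by norm_num) h5 _
    have h8 : Real.exp 4 ^ (h + 1) = Real.exp (4 * (h + 1)) := by
      rw [← Real.exp_nat_mul]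
      congr 1
      push_cast
      ring
    rw [← h8]
    exact h6.trans h7
  have hk3 : (k : ℝ) ^ 3 = Real.exp (3 * z ^ 2) := by
    rw [hz2, mul_comm, ← Real.rpow_def_of_pos hk0']
    norm_cast
  have h3' : (Fintype.card Q : ℝ) ≤ 2 * 4 ^ h * ((K : ℝ) ^ 3 * (k * k)) := by
    exact_mod_cast h3
  calc (Fintype.card Q : ℝ) ≤ 2 * 4 ^ h * ((K : ℝ) ^ 3 * (k * k)) := h3'
    _ ≤ Real.exp (4 * (h + 1)) * (Real.exp ((z + 5 * (h + 1)) ^ 2) ^ 3 * (k * k)) := by
        gcongr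
    _ = (k : ℝ) ^ 2 * (Real.exp (4 * (h + 1)) * Real.exp (3 * (z + 5 * (h + 1)) ^ 2)) := by
        rw [← Real.exp_nat_mul]
        push_cast
        ring
    _ = (k : ℝ) ^ 2 * (Real.exp (3 * z ^ 2) *
        Real.exp (4 * (h + 1) + 30 * z * (h + 1) + 75 * (h + 1) ^ 2)) := by
        rw [← Real.exp_add, ← Real.exp_add]
        congr 2
        ring
    _ = (k : ℝ) ^ 5 * Real.exp (4 * (h + 1) + 30 * z * (h + 1) + 75 * (h + 1) ^ 2) := by
        rw [← hk3]; ring
    _ ≤ (k : ℝ) ^ 5 * Real.exp (100 * (h + 1) * (z + (h + 1))) := by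
        apply mul_le_mul_of_nonneg_left _ (by positivity)
        apply Real.exp_le_exp.mpr
        have hh : (0 : ℝ) ≤ h := by positivity
        nlinarith [mul_nonneg hz0 hh]

end Pool.Agent.J4H24.TE
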