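import Mathlib

/-!
# Unambiguous thrifty branching programs for the tree evaluation problem

The nodes of the complete binary tree of height `h` are the lists `v` of at most `h` bits (the root
is the empty list); the children of `v` are `false :: v` and `true :: v`; the leaves are the lists
of length `h`.
-/

namespace Pool.Agent.J4H24.TE

/-- The input variables, with values in `Fin k`: one for each leaf `v`, and the `k²` entries
(indexed by `a, b`) of a table for each inner node `v`. -/
inductive Var (k : ℕ) where
  | leaf (v : List Bool) : Var k
  | node (v : List Bool) (a b : Fin k) : Var k

/-- The value of the node `v`, the root of a subtree of height `n`, on the input `f`. -/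
def val {k : ℕ} (f : Var k → Fin k) : ℕ → List Bool → Fin k
  | 0, v => f (Var.leaf v)
  | n + 1, v => f (Var.node v (val f n (false :: v)) (val f n (true :: v)))

/-- A nondeterministic `k`-way branching program with state set `Q`: a state is final, with an
output, or it queries one variable; a computation then follows any edge which carries the value of
this variable. -/
structure NBP (k : ℕ) (Q : Type) where
  start : Q
  out : Q → Option (Fin k)
  query : Q → Var k
  edge : Q → Fin k → Q → Prop

/-- `Comp P f q L c`: on the input `f` there is a computation which starts in the state `q`, then
visits the states in the list `L` in this order, and ends in a final state with output `c`. -/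
inductive Comp {k : ℕ} {Q : Type} (P : NBP k Q) (f : Var k → Fin k) :
    Q → List Q → Fin k → Prop
  | stop {q : Q} {c : Fin k} : P.out q = some c → Comp P f q [] c
  | step {q q' : Q} {L : List Q} {c : Fin k} : P.out q = none →
      P.edge q (f (P.query q)) q' → Comp P f q' L c → Comp P f q (q' :: L) c

/-- `P` computes the value of the root of the tree of height `h`, and it is unambiguous: on every
input exactly one computation ends in a final state, and its output is right. -/
def Solves {k : ℕ} {Q : Type} (P : NBP k Q) (h : ℕ) : Prop :=
  ∀ f, ∃ L, Comp P f P.start L (val f h []) ∧
    ∀ L' c, Comp P f P.start L' c → L' = L ∧ c = val f h []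

/-- `P` is thrifty: every computation which ends in a final state queries only leaves, and tables
of inner nodes at the values of their two children. -/
def Thrifty {k : ℕ} {Q : Type} (P : NBP k Q) (h : ℕ) : Prop :=
  ∀ f L c, Comp P f P.start L c → ∀ q ∈ P.start :: L, P.out q = none →
    (∃ v, P.query q = Var.leaf v ∧ v.length = h) ∨
    ∃ v n, v.length + (n + 1) = h ∧
      P.query q = Var.node v (val f n (false :: v)) (val f n (true :: v))

end Pool.Agent.J4H24.TE
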