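import Mathlib

/-!
# Words with few agreements
-/

namespace Pool.Agent.J4H24.TE

open Finset

/-- The number of agreements of two words. -/
def agr {w : ℕ} (a b : Fin w → Fin 16) : ℕ := (univ.filter (fun i => a i = b i)).card

lemma card_fix {w : ℕ} (a : Fin w → Fin 16) (A : Finset (Fin w)) (hA : w < 2 * A.card) :
    ((univ : Finset (Fin w → Fin 16)).filter (fun b => ∀ i ∈ A, a i = b i)).card ≤ 4 ^ w := by
  classical
  have h1 : (univ : Finset (Fin w → Fin 16)).filter (fun b => ∀ i ∈ A, a i = b i) =
      Fintype.piFinset (fun i => if i ∈ A then {a i} else univ) := by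
    ext b
    simp only [mem_filter, mem_univ, true_and, Fintype.mem_piFinset]
    constructor
    · intro h i
      by_cases hi : i ∈ A
      · rw [if_pos hi, mem_singleton]; exact (h i hi).symm
      · rw [if_neg hi]; exact mem_univ _
    · intro h i hi
      have := h i
      rw [if_pos hi, mem_singleton] at this
      exact this.symm
  rw [h1, Fintype.card_piFinset]
  have h2 : ∀ i : Fin w, (if i ∈ A then ({a i} : Finset (Fin 16)) else univ).card =
      if i ∈ A then 1 else 16 := by
    intro i
    split_ifs
    · exact card_singleton _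
    · rw [card_univ, Fintype.card_fin]
  rw [prod_congr rfl (fun i _ => h2 i), prod_ite, prod_const_one, one_mul, prod_const]
  have h3 : (univ.filter (fun i => i ∉ A)).card = w - A.card := by
    have : univ.filter (fun i => i ∉ A) = Aᶜ := by ext i; simp
    rw [this, card_compl, Fintype.card_fin]
  rw [h3]
  calc 16 ^ (w - A.card) = 4 ^ (2 * (w - A.card)) := by
        rw [pow_mul]; norm_num
    _ ≤ 4 ^ w := Nat.pow_le_pow_right (by norm_num) (by omega)

lemma card_bad {w : ℕ} (a : Fin w → Fin 16) :
    ((univ : Finset (Fin w → Fin 16)).filter (fun b => w < 2 * agr a b)).card ≤ 8 ^ w := by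
  classical
  have h1 : (univ : Finset (Fin w → Fin 16)).filter (fun b => w < 2 * agr a b) ⊆
      ((univ : Finset (Finset (Fin w))).filter (fun A => w < 2 * A.card)).biUnion
        (fun A => (univ : Finset (Fin w → Fin 16)).filter (fun b => ∀ i ∈ A, a i = b i)) := by
    intro b hb
    rw [mem_biUnion]
    refine ⟨univ.filter (fun i => a i = b i), ?_, ?_⟩
    · exact mem_filter.mpr ⟨mem_univ _, (mem_filter.mp hb).2⟩
    · exact mem_filter.mpr ⟨mem_univ _, fun i hi => (mem_filter.mp hi).2⟩
  refine (card_le_card h1).trans ?_
  refine (card_biUnion_le_card_mul _ _ (4 ^ w) ?_).trans ?_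
  · intro A hA
    exact card_fix a A (mem_filter.mp hA).2
  · have h2 : ((univ : Finset (Finset (Fin w))).filter (fun A => w < 2 * A.card)).card ≤ 2 ^ w := by
      refine (card_le_univ _).trans ?_
      rw [Fintype.card_finset, Fintype.card_fin]
    calc _ ≤ 2 ^ w * 4 ^ w := Nat.mul_le_mul_right _ h2
      _ = 8 ^ w := by rw [← mul_pow]; norm_num

/-- **A large code.** -/
lemma exists_words (w : ℕ) : ∀ n, n ≤ 2 ^ w → ∃ c : ℕ → (Fin w → Fin 16),
    ∀ x x', x < n → x' < n → x ≠ x' → 2 * agr (c x) (c x') ≤ w := by
  classical
  intro n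
  induction n with
  | zero => intro _; exact ⟨fun _ _ => 0, fun x x' h => by omega⟩
  | succ n ih =>
    intro hn
    obtain ⟨c, hc⟩ := ih (by omega)
    have h1 : ((range n).biUnion (fun x => (univ : Finset (Fin w → Fin 16)).filter
        (fun b => w < 2 * agr (c x) b))).card < Fintype.card (Fin w → Fin 16) := by
      refine lt_of_le_of_lt (card_biUnion_le_card_mul _ _ (8 ^ w) (fun x _ => card_bad (c x))) ?_
      rw [card_range, Fintype.card_fun, Fintype.card_fin, Fintype.card_fin]
      calc n * 8 ^ w < 2 ^ w * 8 ^ w := Nat.mul_lt_mul_of_pos_right (by omega) (by positivity)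
        _ = 16 ^ w := by rw [← mul_pow]; norm_num
    obtain ⟨b, hb⟩ : ∃ b, b ∉ (range n).biUnion (fun x => (univ : Finset (Fin w → Fin 16)).filter
        (fun b => w < 2 * agr (c x) b)) := by
      by_contra hcon
      push Not at hcon
      have : (univ : Finset (Fin w → Fin 16)) ⊆ (range n).biUnion
          (fun x => (univ : Finset (Fin w → Fin 16)).filter (fun b => w < 2 * agr (c x) b)) :=
        fun b _ => hcon b
      have := card_le_card this
      rw [card_univ] at this
      omega
    have hb' : ∀ x, x < n → 2 * agr (c x) b ≤ w := by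
      intro x hx
      by_contra hcon
      exact hb (mem_biUnion.mpr ⟨x, mem_range.mpr hx, mem_filter.mpr ⟨mem_univ _, by omega⟩⟩)
    have hsym : ∀ a b : Fin w → Fin 16, agr a b = agr b a := by
      intro a b
      unfold agr
      congr 1
      ext i
      simp [eq_comm]
    refine ⟨fun x => if x = n then b else c x, ?_⟩
    intro x x' hx hx' hne
    simp only
    by_cases h2 : x = n
    · rw [if_pos h2, if_neg (by omega), hsym]
      exact hb' x' (by omega)
    · rw [if_neg h2]
      by_cases h3 : x' = n
      · rw [if_pos h3]; exact hb' x (by omega)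
      · rw [if_neg h3]; exact hc x x' (by omega) (by omega) hne

end Pool.Agent.J4H24.TE
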