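import Pool.Agent.J4H24.TE.Gv
import Pool.Agent.J4H24.TE.Main

/-!
# Codes of linear size from strips (after Fischer, Lehman, Newman, Raskhodnikova, Rubinfeld and
Samorodnitsky)
-/

namespace Pool.Agent.J4H24.TE

open Finset

/-- The weight of a point along a word. -/
def wt {w : ℕ} (c : Fin w → Fin 16) (z : Fin w × Fin 16 → ℕ) : ℕ := ∑ i, z (i, c i)

/-- The translation along a word. -/
def tr {w : ℕ} (c : Fin w → Fin 16) (z : Fin w × Fin 16 → ℕ) : Fin w × Fin 16 → ℕ :=
  fun p => if c p.1 = p.2 then z p + 2 else z p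

lemma wt_tr {w : ℕ} (c c' : Fin w → Fin 16) (z : Fin w × Fin 16 → ℕ) :
    wt c (tr c' z) = wt c z + 2 * agr c c' := by
  unfold wt tr agr
  rw [card_filter, mul_sum, ← sum_add_distrib]
  apply sum_congr rfl
  intro i _
  by_cases h : c i = c' i
  · rw [if_pos h.symm, if_pos h, mul_one]
  · rw [if_neg (fun e => h e.symm), if_neg h]; ring

lemma agr_self {w : ℕ} (c : Fin w → Fin 16) : agr c c = w := by
  unfold agr
  simp

lemma tr_inj {w : ℕ} {c : Fin w → Fin 16} {z z' : Fin w × Fin 16 → ℕ} (h : tr c z = tr c z') :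
    z = z' := by
  funext p
  have := congrFun h p
  unfold tr at this
  split_ifs at this
  · omega
  · exact this

/-- The left part of the matching of a word. -/
def Lf (w m : ℕ) (c : Fin w → Fin 16) (z : Fin w × Fin 16 → Fin m) : Prop :=
  wt c (fun p => (z p : ℕ)) % (4 * w) < w

lemma wt_update {w m : ℕ} (hw : 0 < w) (c : Fin w → Fin 16) (z : Fin w × Fin 16 → Fin m)
    (v : Fin m) :
    wt c (fun p => ((Function.update z (⟨0, hw⟩, c ⟨0, hw⟩) v) p : ℕ)) +
      (z (⟨0, hw⟩, c ⟨0, hw⟩) : ℕ) = wt c (fun p => (z p : ℕ)) + v := by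
  have g1 := add_sum_erase univ (fun i : Fin w =>
    ((Function.update z (⟨0, hw⟩, c ⟨0, hw⟩) v) (i, c i) : ℕ)) (mem_univ (⟨0, hw⟩ : Fin w))
  have g2 := add_sum_erase univ (fun i : Fin w => (z (i, c i) : ℕ)) (mem_univ (⟨0, hw⟩ : Fin w))
  have h1 : ∑ x ∈ univ.erase (⟨0, hw⟩ : Fin w),
      ((Function.update z (⟨0, hw⟩, c ⟨0, hw⟩) v) (x, c x) : ℕ) =
      ∑ x ∈ univ.erase (⟨0, hw⟩ : Fin w), (z (x, c x) : ℕ) := by
    apply sum_congr rfl
    intro x hx
    rw [Function.update_of_ne]
    intro e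
    exact (mem_erase.mp hx).1 (congrArg Prod.fst e)
  rw [h1, Function.update_self] at g1
  show (∑ i : Fin w, ((Function.update z (⟨0, hw⟩, c ⟨0, hw⟩) v) (i, c i) : ℕ)) + _ =
    (∑ i : Fin w, (z (i, c i) : ℕ)) + v
  rw [← g1, ← g2]
  ring

/-- A quarter of the points are on the left. -/
lemma card_left {w m : ℕ} (hw : 0 < w) (hm : 4 * w ∣ m) (hm0 : 0 < m) (c : Fin w → Fin 16) :
    m ^ (16 * w) ≤ 4 * Nat.card {z : Fin w × Fin 16 → Fin m // Lf w m c z} := by
  classical
  have : NeZero m := ⟨by omega⟩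
  let j : Fin w × Fin 16 := (⟨0, hw⟩, c ⟨0, hw⟩)
  let R : (Fin w × Fin 16 → Fin m) → ℕ := fun z => wt c (fun p => (z p : ℕ)) % (4 * w) / w
  have hR : ∀ z, R z < 4 := by
    intro z
    have := Nat.mod_lt (wt c (fun p => (z p : ℕ))) (show 0 < 4 * w by omega)
    exact Nat.div_lt_of_lt_mul (by rw [mul_comm w 4]; exact this)
  let sh : ℕ → (Fin w × Fin 16 → Fin m) → (Fin w × Fin 16 → Fin m) := fun a z =>
    Function.update z j ⟨((z j : ℕ) + a * w) % m, Nat.mod_lt _ hm0⟩
  have hsh : ∀ z, Lf w m c (sh (4 - R z) z) := by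
    intro z
    have h1 := wt_update hw c z ⟨((z j : ℕ) + (4 - R z) * w) % m, Nat.mod_lt _ hm0⟩
    simp only at h1
    set W := wt c (fun p => (z p : ℕ)) with hW
    set W' := wt c (fun p => ((Function.update z (⟨0, hw⟩, c ⟨0, hw⟩)
      ⟨((z j : ℕ) + (4 - R z) * w) % m, Nat.mod_lt _ hm0⟩) p : ℕ)) with hW'
    show W' % (4 * w) < w
    have h2 : (W' + (z j : ℕ)) % (4 * w) = (W + ((z j : ℕ) + (4 - R z) * w)) % (4 * w) := by
      rw [h1, Nat.add_mod, Nat.mod_mod_of_dvd _ hm, ← Nat.add_mod]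
    have h3 : W' % (4 * w) = (W + (4 - R z) * w) % (4 * w) := by
      have h4 : (W' + (z j : ℕ)) ≡ ((W + (4 - R z) * w) + (z j : ℕ)) [MOD (4 * w)] := by
        unfold Nat.ModEq
        rw [h2]
        congr 1
        ring
      exact Nat.ModEq.add_right_cancel' _ h4
    have hRz : R z < 4 := hR z
    have h5 : W % (4 * w) = R z * w + (W % (4 * w)) % w := by
      have := Nat.div_add_mod (W % (4 * w)) w
      rw [mul_comm] at this
      exact this.symm
    have h6 : (W % (4 * w)) % w < w := Nat.mod_lt _ hw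
    have h7 : W + (4 - R z) * w = 4 * w * (W / (4 * w)) + (4 * w + (W % (4 * w)) % w) := by
      have h8 := Nat.div_add_mod W (4 * w)
      have h9 : R z * w + (4 - R z) * w = 4 * w := by
        rw [← Nat.add_mul]; congr 1; omega
      omega
    rw [h3, h7, Nat.mul_add_mod, Nat.add_mod_left, Nat.mod_eq_of_lt (by omega)]
    exact h6
  let Ψ : (Fin w × Fin 16 → Fin m) → Fin 4 × {z : Fin w × Fin 16 → Fin m // Lf w m c z} :=
    fun z => (⟨R z, hR z⟩, ⟨sh (4 - R z) z, hsh z⟩)
  have hinj : Function.Injective Ψ := by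
    intro z z' e
    have e1 : R z = R z' := congrArg (fun x => x.1.val) e
    have e2 : sh (4 - R z) z = sh (4 - R z') z' := congrArg (fun x => x.2.val) e
    rw [← e1] at e2
    funext p
    by_cases hp : p = j
    · subst hp
      have h1 := congrArg Fin.val (congrFun e2 j)
      simp only [sh, Function.update_self] at h1
      have h2 : (z j : ℕ) ≡ (z' j : ℕ) [MOD m] := Nat.ModEq.add_right_cancel' _ h1
      exact Fin.ext (Nat.ModEq.eq_of_lt_of_lt h2 (z j).isLt (z' j).isLt)
    · have h1 := congrFun e2 p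
      simp only [sh, Function.update_of_ne hp] at h1
      exact h1
  have h1 := Nat.card_le_card_of_injective Ψ hinj
  rw [Nat.card_prod, Nat.card_fun, Nat.card_prod] at h1
  simp only [Nat.card_eq_fintype_card, Fintype.card_fin] at h1 ⊢
  rw [mul_comm 16 w]
  exact h1

/-- **A code of linear size.** -/
lemma exists_strip {k w m N : ℕ} (hw : 0 < w) (hk : k ≤ 2 ^ w) (hm : 4 * w ∣ m) (hm0 : 0 < m)
    (hN : 4 * N ≤ m ^ (16 * w)) : ∃ al be : ℕ → ℕ → ℕ,
    (∀ x x' s t s', x < k → x' < k → s < N → t < N → s' < N →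
      al x s = al x' t → be x' t = be x s' → x' = x ∧ s' = s) ∧
    (∀ x s, x < k → s < N → al x s < (m + 2) ^ (16 * w)) ∧
    (∀ x s, x < k → s < N → be x s < (m + 2) ^ (16 * w)) := by
  classical
  obtain ⟨c, hc⟩ := exists_words w (2 ^ w) le_rfl
  have hσ : ∀ x : ℕ, ∃ σ : Fin N → {z : Fin w × Fin 16 → Fin m // Lf w m (c x) z},
      Function.Injective σ := by
    intro x
    have h1 := card_left hw hm hm0 (c x)
    have h2 : N ≤ Fintype.card {z : Fin w × Fin 16 → Fin m // Lf w m (c x) z} := by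
      rw [Nat.card_eq_fintype_card] at h1
      omega
    obtain ⟨e⟩ := Function.Embedding.nonempty_of_card_le
      (α := Fin N) (β := {z : Fin w × Fin 16 → Fin m // Lf w m (c x) z})
      (by rw [Fintype.card_fin]; exact h2)
    exact ⟨e, e.injective⟩
  choose σ hσi using hσ
  -- numbering of the points
  let V := Fin w × Fin 16 → Fin (m + 2)
  have hV : Fintype.card V = (m + 2) ^ (16 * w) := by
    simp only [V, Fintype.card_fun, Fintype.card_prod, Fintype.card_fin]
    rw [mul_comm]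
  let e : V ≃ Fin ((m + 2) ^ (16 * w)) := Fintype.equivFinOfCardEq hV
  let num : (Fin w × Fin 16 → ℕ) → ℕ := fun z =>
    if h : ∀ p, z p < m + 2 then (e (fun p => ⟨z p, h p⟩) : ℕ) else 0
  have hnum : ∀ z, num z < (m + 2) ^ (16 * w) := by
    intro z
    simp only [num]
    split_ifs
    · exact (e _).isLt
    · positivity
  have hnumi : ∀ z z', (∀ p, z p < m + 2) → (∀ p, z' p < m + 2) → num z = num z' → z = z' := by
    intro z z' h h' hh
    simp only [num, dif_pos h, dif_pos h'] at hh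
    have h1 := e.injective (Fin.ext hh)
    funext p
    exact congrArg Fin.val (congrFun h1 p)
  let pt : ℕ → ℕ → (Fin w × Fin 16 → ℕ) := fun x s =>
    if h : s < N then fun p => ((σ x ⟨s, h⟩).1 p : ℕ) else fun _ => 0
  have hpt1 : ∀ x s, s < N → ∀ p, pt x s p < m := by
    intro x s hs p
    simp only [pt, dif_pos hs]
    exact ((σ x ⟨s, hs⟩).1 p).isLt
  have hpt2 : ∀ x s, s < N → wt (c x) (pt x s) % (4 * w) < w := by
    intro x s hs
    simp only [pt, dif_pos hs]
    exact (σ x ⟨s, hs⟩).2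
  have hpti : ∀ x s s', s < N → s' < N → pt x s = pt x s' → s = s' := by
    intro x s s' hs hs' h
    simp only [pt, dif_pos hs, dif_pos hs'] at h
    have h1 : σ x ⟨s, hs⟩ = σ x ⟨s', hs'⟩ := by
      apply Subtype.ext
      funext p
      exact Fin.ext (congrFun h p)
    exact congrArg Fin.val (hσi x h1)
  have htr : ∀ x s, s < N → ∀ p, tr (c x) (pt x s) p < m + 2 := by
    intro x s hs p
    have := hpt1 x s hs p
    unfold tr
    split_ifs <;> omega
  refine ⟨fun x s => num (pt x s), fun x s => num (tr (c x) (pt x s)), ?_,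
    fun x s _ _ => hnum _, fun x s _ _ => hnum _⟩
  intro x x' s t s' hx hx' hs ht hs' h1 h2
  have e1 := hnumi _ _ (fun p => by have := hpt1 x s hs p; omega)
    (fun p => by have := hpt1 x' t ht p; omega) h1
  have e2 := hnumi _ _ (htr x' t ht) (htr x s' hs') h2
  by_cases hxx : x' = x
  · subst hxx
    have e3 := hpti x' t s' ht hs' (tr_inj e2)
    have e4 := hpti x' s t hs ht e1
    exact ⟨rfl, by omega⟩
  · exfalso
    have a1 := hpt2 x s hs
    have a2 := hpt2 x s' hs'
    have a3 : wt (c x) (tr (c x') (pt x' t)) = wt (c x) (pt x s) + 2 * agr (c x) (c x') := by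
      rw [wt_tr, e1]
    have a4 : wt (c x) (tr (c x) (pt x s')) = wt (c x) (pt x s') + 2 * w := by
      rw [wt_tr, agr_self]
    rw [e2, a4] at a3
    have a5 := hc x x' (by omega) (by omega) (fun e => hxx e.symm)
    set A := wt (c x) (pt x s)
    set B := wt (c x) (pt x s')
    have b1 := Nat.div_add_mod A (4 * w)
    have b2 := Nat.div_add_mod B (4 * w)
    have c1 : (B + 2 * w) % (4 * w) = B % (4 * w) + 2 * w := by
      have : B + 2 * w = 4 * w * (B / (4 * w)) + (B % (4 * w) + 2 * w) := by omega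
      rw [this, Nat.mul_add_mod, Nat.mod_eq_of_lt (by omega)]
    have c2 : (A + 2 * agr (c x) (c x')) % (4 * w) = A % (4 * w) + 2 * agr (c x) (c x') := by
      have : A + 2 * agr (c x) (c x') = 4 * w * (A / (4 * w)) +
          (A % (4 * w) + 2 * agr (c x) (c x')) := by omega
      rw [this, Nat.mul_add_mod, Nat.mod_eq_of_lt (by omega)]
    rw [← a3, c1] at c2
    omega

end Pool.Agent.J4H24.TE
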